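import Pool.Agent.helper7.EP.SpecA

/-!
# Row ep:EMP (problem MP_ebc808_nt): the empty case
-/

set_option autoImplicit false

open Finset PowerSeries

noncomputable section

namespace Pool.Agent.EP

theorem EMP_zero (j : ℕ) : JG ac j 0 = 0 := by
  unfold JG
  apply Finset.sum_eq_zero
  intro d _
  rw [mul_zero, Int.zero_ediv]
  unfold ac
  rw [if_neg]
  norm_num

theorem EMP (hIDK : IDK_stmt) (hJN : JN_stmt) : EMP_stmt := by
  intro a k M ha hk h1 h2
  rw [← hIDK a k ha hk (M : ℤ)]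
  apply Finset.sum_eq_zero
  intro u hu
  unfold us at hu
  rw [Finset.mem_filter] at hu
  obtain ⟨_, hodd, hdvd⟩ := hu
  obtain ⟨q, hq⟩ := hdvd
  have hA : (0 : ℤ) < 2 ^ a := by positivity
  rw [hq, Int.mul_ediv_cancel_left _ hA.ne']
  have hk0 : 0 < k := by
    rcases Nat.eq_zero_or_pos k with h | h
    · rw [h] at hk
      exact absurd hk (by decide)
    · exact h
  rcases lt_trichotomy q 0 with h | h | h
  · rw [hJN k q hk0 h, if_neg]
    intro h3
    apply h2 u
    rw [h3] at hq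
    have h4 : (3 * (u : ℤ) ^ 2) = M + k * 2 ^ a := by linarith
    exact_mod_cast h4
  · rw [h]
    exact EMP_zero k
  · exfalso
    have h5 : (0 : ℤ) < 2 ^ a * q := mul_pos hA h
    have h6 : 3 * (u : ℤ) ^ 2 < M := by linarith
    have h7 : 3 * u ^ 2 < M := by exact_mod_cast h6
    apply h1 u hodd h7
    have h8 : ((2 ^ a : ℕ) : ℤ) ∣ ((M - 3 * u ^ 2 : ℕ) : ℤ) := by
      rw [Nat.cast_sub h7.le]
      push_cast
      exact ⟨q, hq⟩
    exact_mod_cast h8

end Pool.Agent.EP
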