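import Pool.Agent.helper7.EP.SpecB

set_option autoImplicit false

open Finset

noncomputable section

namespace Pool.Agent.EP

theorem XC1_cls (k N : ℕ) (hk : 0 < k) (h24 : k % 24 = 1 % 24) :
    #{m ∈ Icc 1 N | k ∣ 24 * m - 1} ≤ N / k + 1 := by
  have hco : Nat.Coprime k 24 := by
    have h1 : Nat.gcd k 24 = Nat.gcd (k % 24) 24 := by
      rw [Nat.gcd_comm, Nat.gcd_rec]
    rw [Nat.Coprime, h1, h24]
    norm_num
  have h2 : #{m ∈ Icc 1 N | k ∣ 24 * m - 1} ≤ #(range (N / k + 1)) := by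
    refine Finset.card_le_card_of_injOn (fun m => m / k) ?_ ?_
    · intro m hm
      rw [Finset.mem_coe, Finset.mem_filter, Finset.mem_Icc] at hm
      rw [Finset.mem_coe, Finset.mem_range]
      exact Nat.lt_succ_of_le (Nat.div_le_div_right hm.1.2)
    · intro m hm m' hm' he
      rw [Finset.mem_coe, Finset.mem_filter, Finset.mem_Icc] at hm hm'
      have he' : m / k = m' / k := he
      have h3 : m ≡ m' [MOD k] := by
        have h4 : 24 * m ≡ 24 * m' [MOD k] := by
          have h5 : 1 ≡ 24 * m [MOD k] := (Nat.modEq_iff_dvd' (by omega)).2 hm.2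
          have h6 : 1 ≡ 24 * m' [MOD k] := (Nat.modEq_iff_dvd' (by omega)).2 hm'.2
          exact h5.symm.trans h6
        exact Nat.ModEq.cancel_left_of_coprime hco h4
      have h7 : m % k = m' % k := h3
      rw [← Nat.div_add_mod m k, ← Nat.div_add_mod m' k, he', h7]
  rwa [Finset.card_range] at h2

theorem XC1 : XC1_stmt := by
  intro a k X hk
  rw [PK, Finset.mem_filter, Finset.mem_Ioc] at hk
  obtain ⟨⟨hk1, -⟩, -, hk2⟩ := hk
  have hA : 0 < 2 ^ a := Nat.two_pow_pos a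
  have hk0 : 0 < k := lt_trans hA hk1
  let M : Finset ℕ := {m ∈ Icc 1 (X / 2 ^ a) | k ∣ 24 * m - 1}
  have hM : #M ≤ X / 4 ^ a + 1 := by
    refine (XC1_cls k (X / 2 ^ a) hk0 hk2).trans ?_
    have h1 : X / 2 ^ a / k ≤ X / 2 ^ a / 2 ^ a := Nat.div_le_div_left hk1.le hA
    have h2 : X / 2 ^ a / 2 ^ a = X / 4 ^ a := by
      rw [Nat.div_div_eq_div_mul, ← mul_pow]
      norm_num
    omega
  have hsub : {n : ℕ | n ≤ X ∧ XC a k n} ⊆
      (((range (Nat.sqrt (2 * X) + 1) ×ˢ M).image (fun p : ℕ × ℕ => tri p.1 + 2 ^ a * p.2) : Finset ℕ) : Set ℕ) := by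
    intro n hn
    obtain ⟨hnX, r, hr, hm, hdvd⟩ := hn
    rw [rs, Finset.mem_filter] at hr
    obtain ⟨-, hr1, hr2⟩ := hr
    rw [Finset.mem_coe, Finset.mem_image]
    refine ⟨(r, (n - tri r) / 2 ^ a), ?_, ?_⟩
    · rw [Finset.mem_product, Finset.mem_range, Finset.mem_filter, Finset.mem_Icc]
      refine ⟨?_, ⟨hm, ?_⟩, hdvd⟩
      · apply Nat.lt_succ_of_le
        rw [Nat.le_sqrt]
        have h3 : r * r ≤ 2 * tri r := by
          have h4 : 2 * tri r = r * (r + 1) := by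
            rw [tri]
            exact Nat.mul_div_cancel' (Nat.even_mul_succ_self r).two_dvd
          rw [h4]
          exact Nat.mul_le_mul_left r (Nat.le_succ r)
        have h5 : 2 * tri r ≤ 2 * X := Nat.mul_le_mul_left 2 (hr1.trans hnX)
        exact h3.trans h5
      · exact Nat.div_le_div_right ((Nat.sub_le _ _).trans hnX)
    · change tri r + 2 ^ a * ((n - tri r) / 2 ^ a) = n
      rw [Nat.mul_div_cancel' hr2]
      omega
  calc Set.ncard {n : ℕ | n ≤ X ∧ XC a k n}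
      ≤ Set.ncard (((range (Nat.sqrt (2 * X) + 1) ×ˢ M).image
          (fun p : ℕ × ℕ => tri p.1 + 2 ^ a * p.2) : Finset ℕ) : Set ℕ) :=
        Set.ncard_le_ncard hsub (Finset.finite_toSet _)
    _ = #((range (Nat.sqrt (2 * X) + 1) ×ˢ M).image (fun p : ℕ × ℕ => tri p.1 + 2 ^ a * p.2)) :=
        Set.ncard_coe_finset _
    _ ≤ #(range (Nat.sqrt (2 * X) + 1) ×ˢ M) := Finset.card_image_le
    _ = (Nat.sqrt (2 * X) + 1) * #M := by rw [Finset.card_product, Finset.card_range]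
    _ ≤ _ := Nat.mul_le_mul_left _ hM

end Pool.Agent.EP
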