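import Pool.Agent.helper71.EP.SpecE

set_option autoImplicit false

open Finset
open scoped Real

noncomputable section

namespace Pool.Agent.EP

theorem EM4_key (A B C D : ℕ) (hA : 0 < A) (_hB : 0 < B) (hC : 0 < C) (h : A * B = C * D) :
    A = Nat.gcd A C * (A / Nat.gcd A C) ∧ C = Nat.gcd A C * (C / Nat.gcd A C) ∧
    B = (C / Nat.gcd A C) * (B / (C / Nat.gcd A C)) ∧ D = (A / Nat.gcd A C) * (B / (C / Nat.gcd A C)) := by
  have hg : 0 < Nat.gcd A C := Nat.gcd_pos_of_pos_left _ hA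
  have h1 : A = Nat.gcd A C * (A / Nat.gcd A C) := (Nat.mul_div_cancel' (Nat.gcd_dvd_left A C)).symm
  have h2 : C = Nat.gcd A C * (C / Nat.gcd A C) := (Nat.mul_div_cancel' (Nat.gcd_dvd_right A C)).symm
  have hco : Nat.Coprime (A / Nat.gcd A C) (C / Nat.gcd A C) := Nat.coprime_div_gcd_div_gcd hg
  have h3 : A / Nat.gcd A C * B = C / Nat.gcd A C * D := by
    apply Nat.eq_of_mul_eq_mul_left hg
    rw [← mul_assoc, ← mul_assoc, ← h1, ← h2, h]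
  have hy : 0 < C / Nat.gcd A C := by
    rcases Nat.eq_zero_or_pos (C / Nat.gcd A C) with h0 | h0
    · rw [h0, mul_zero] at h2
      omega
    · exact h0
  have h4 : C / Nat.gcd A C ∣ B := by
    apply hco.symm.dvd_of_dvd_mul_left
    rw [h3]
    exact Dvd.intro _ rfl
  have h5 : B = (C / Nat.gcd A C) * (B / (C / Nat.gcd A C)) := (Nat.mul_div_cancel' h4).symm
  refine ⟨h1, h2, h5, ?_⟩
  apply Nat.eq_of_mul_eq_mul_left hy
  rw [← h3]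
  calc A / Nat.gcd A C * B = A / Nat.gcd A C * ((C / Nat.gcd A C) * (B / (C / Nat.gcd A C))) := by
        rw [← h5]
    _ = _ := by ring

theorem EM4_card (Z : ℕ) :
    #{v ∈ (Ioc 0 Z ×ˢ Ioc 0 Z) ×ˢ (Ioc 0 Z ×ˢ Ioc 0 Z) | v.1.1 * v.2.1 = v.1.2 * v.2.2} ≤
      ∑ p ∈ Ioc 0 Z ×ˢ Ioc 0 Z, (Z / max p.1 p.2) ^ 2 := by
  have h1 : ∑ p ∈ Ioc 0 Z ×ˢ Ioc 0 Z, (Z / max p.1 p.2) ^ 2 =
      #((Ioc 0 Z ×ˢ Ioc 0 Z).sigma
        (fun p => Ioc 0 (Z / max p.1 p.2) ×ˢ Ioc 0 (Z / max p.1 p.2))) := by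
    rw [Finset.card_sigma]
    refine Finset.sum_congr rfl (fun p _ => ?_)
    rw [Finset.card_product, Nat.card_Ioc, Nat.sub_zero, sq]
  rw [h1]
  refine Finset.card_le_card_of_injOn
    (fun v => ⟨(Nat.gcd v.1.1 v.1.2, v.2.1 / (v.1.2 / Nat.gcd v.1.1 v.1.2)),
      (v.1.1 / Nat.gcd v.1.1 v.1.2, v.1.2 / Nat.gcd v.1.1 v.1.2)⟩) ?_ ?_
  · rintro ⟨⟨A, C⟩, ⟨B, D⟩⟩ hv
    simp only [Finset.coe_filter, Finset.mem_product, Finset.mem_Ioc, Set.mem_ofPred_eq] at hv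
    obtain ⟨⟨⟨⟨hA, hA'⟩, hC, hC'⟩, ⟨hB, hB'⟩, hD, hD'⟩, he⟩ := hv
    obtain ⟨k1, k2, k3, k4⟩ := EM4_key A B C D hA hB hC he
    simp only [Finset.coe_sigma, Set.mem_sigma_iff, Finset.mem_coe, Finset.mem_product,
      Finset.mem_Ioc]
    set g := Nat.gcd A C with hg
    set x := A / g with hx
    set y := C / g with hy
    set z := B / y with hz
    have g0 : 0 < g := by
      rcases Nat.eq_zero_or_pos g with h0 | h0
      · rw [h0, zero_mul] at k1; omega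
      · exact h0
    have x0 : 0 < x := by
      rcases Nat.eq_zero_or_pos x with h0 | h0
      · rw [h0, mul_zero] at k1; omega
      · exact h0
    have y0 : 0 < y := by
      rcases Nat.eq_zero_or_pos y with h0 | h0
      · rw [h0, mul_zero] at k2; omega
      · exact h0
    have z0 : 0 < z := by
      rcases Nat.eq_zero_or_pos z with h0 | h0
      · rw [h0, mul_zero] at k3; omega
      · exact h0
    have m0 : 0 < max g z := lt_of_lt_of_le g0 (le_max_left _ _)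
    refine ⟨⟨⟨g0, ?_⟩, z0, ?_⟩, ⟨x0, ?_⟩, y0, ?_⟩
    · calc g = g * 1 := (mul_one g).symm
        _ ≤ g * x := Nat.mul_le_mul_left g x0
        _ = A := k1.symm
        _ ≤ Z := hA'
    · calc z = 1 * z := (one_mul z).symm
        _ ≤ y * z := Nat.mul_le_mul_right z y0
        _ = B := k3.symm
        _ ≤ Z := hB'
    · rw [Nat.le_div_iff_mul_le m0]
      rcases max_choice g z with h | h
      · rw [h, mul_comm, ← k1]; exact hA'
      · rw [h, ← k4]; exact hD'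
    · rw [Nat.le_div_iff_mul_le m0]
      rcases max_choice g z with h | h
      · rw [h, mul_comm, ← k2]; exact hC'
      · rw [h, ← k3]; exact hB'
  · rintro ⟨⟨A, C⟩, ⟨B, D⟩⟩ hv ⟨⟨A', C'⟩, ⟨B', D'⟩⟩ hv' heq
    simp only [Finset.coe_filter, Finset.mem_product, Finset.mem_Ioc, Set.mem_ofPred_eq] at hv hv'
    obtain ⟨k1, k2, k3, k4⟩ := EM4_key A B C D hv.1.1.1.1 hv.1.2.1.1 hv.1.1.2.1 hv.2
    obtain ⟨l1, l2, l3, l4⟩ := EM4_key A' B' C' D' hv'.1.1.1.1 hv'.1.2.1.1 hv'.1.1.2.1 hv'.2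
    simp only [Sigma.mk.injEq, Prod.mk.injEq, heq_eq_eq] at heq
    obtain ⟨⟨e1, e2⟩, e3, e4⟩ := heq
    rw [Prod.mk.injEq, Prod.mk.injEq, Prod.mk.injEq]
    refine ⟨⟨?_, ?_⟩, ?_, ?_⟩
    · exact k1.trans ((congrArg₂ (· * ·) e1 e3).trans l1.symm)
    · exact k2.trans ((congrArg₂ (· * ·) e1 e4).trans l2.symm)
    · exact k3.trans ((congrArg₂ (· * ·) e4 e2).trans l3.symm)
    · exact k4.trans ((congrArg₂ (· * ·) e3 e2).trans l4.symm)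

theorem EM4_half (Z : ℕ) (f : ℕ → ℝ) (hf : ∀ m, 0 ≤ f m) :
    ∑ g ∈ Ioc 0 Z, ∑ z ∈ Ioc 0 Z, (if z ≤ g then f g else 0) ≤ ∑ g ∈ Ioc 0 Z, (g : ℝ) * f g := by
  refine Finset.sum_le_sum (fun g _ => ?_)
  rw [← Finset.sum_filter, Finset.sum_const, nsmul_eq_mul]
  refine mul_le_mul_of_nonneg_right ?_ (hf g)
  have h : #{z ∈ Ioc 0 Z | z ≤ g} ≤ g := by
    calc #{z ∈ Ioc 0 Z | z ≤ g} ≤ #(Ioc 0 g) := by
          refine Finset.card_le_card (fun z hz => ?_)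
          rw [Finset.mem_filter, Finset.mem_Ioc] at hz
          rw [Finset.mem_Ioc]
          exact ⟨hz.1.1, hz.2⟩
      _ = g := by rw [Nat.card_Ioc, Nat.sub_zero]
  exact_mod_cast h

theorem EM4_max (Z : ℕ) (f : ℕ → ℝ) (hf : ∀ m, 0 ≤ f m) :
    ∑ p ∈ Ioc 0 Z ×ˢ Ioc 0 Z, f (max p.1 p.2) ≤ 2 * ∑ g ∈ Ioc 0 Z, (g : ℝ) * f g := by
  rw [Finset.sum_product]
  calc ∑ g ∈ Ioc 0 Z, ∑ z ∈ Ioc 0 Z, f (max g z)
      ≤ ∑ g ∈ Ioc 0 Z, ∑ z ∈ Ioc 0 Z, ((if z ≤ g then f g else 0) + (if g ≤ z then f z else 0)) := by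
        refine Finset.sum_le_sum (fun g _ => Finset.sum_le_sum (fun z _ => ?_))
        have h1 := hf g
        have h2 := hf z
        rcases le_total z g with h | h
        · rw [max_eq_left h, if_pos h]
          split_ifs
          · linarith
          · linarith
        · rw [max_eq_right h, if_pos h]
          split_ifs
          · linarith
          · linarith
    _ = ∑ g ∈ Ioc 0 Z, ∑ z ∈ Ioc 0 Z, (if z ≤ g then f g else 0) +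
        ∑ g ∈ Ioc 0 Z, ∑ z ∈ Ioc 0 Z, (if g ≤ z then f z else 0) := by
        simp only [Finset.sum_add_distrib]
    _ = ∑ g ∈ Ioc 0 Z, ∑ z ∈ Ioc 0 Z, (if z ≤ g then f g else 0) +
        ∑ z ∈ Ioc 0 Z, ∑ g ∈ Ioc 0 Z, (if g ≤ z then f z else 0) := by
        congr 1
        exact Finset.sum_comm
    _ ≤ _ := by
        have := EM4_half Z f hf
        linarith

theorem EM4 : EM4_stmt := by
  intro Z hZ
  have hZ0 : (0 : ℝ) ≤ Z := Nat.cast_nonneg Z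
  have h1 : (#{v ∈ (Ioc 0 Z ×ˢ Ioc 0 Z) ×ˢ (Ioc 0 Z ×ˢ Ioc 0 Z) | v.1.1 * v.2.1 = v.1.2 * v.2.2} : ℝ) ≤
      ∑ p ∈ Ioc 0 Z ×ˢ Ioc 0 Z, ((Z : ℝ) / ((max p.1 p.2 : ℕ) : ℝ)) ^ 2 := by
    calc (#{v ∈ (Ioc 0 Z ×ˢ Ioc 0 Z) ×ˢ (Ioc 0 Z ×ˢ Ioc 0 Z) | v.1.1 * v.2.1 = v.1.2 * v.2.2} : ℝ)
        ≤ ((∑ p ∈ Ioc 0 Z ×ˢ Ioc 0 Z, (Z / max p.1 p.2) ^ 2 : ℕ) : ℝ) := by
          exact_mod_cast EM4_card Z
      _ = ∑ p ∈ Ioc 0 Z ×ˢ Ioc 0 Z, ((Z / max p.1 p.2 : ℕ) : ℝ) ^ 2 := by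
          push_cast
          rfl
      _ ≤ _ := by
          refine Finset.sum_le_sum (fun p _ => ?_)
          exact pow_le_pow_left₀ (Nat.cast_nonneg _) Nat.cast_div_le 2
  have h2 := EM4_max Z (fun m => ((Z : ℝ) / (m : ℝ)) ^ 2) (fun m => sq_nonneg _)
  have h3 : ∑ g ∈ Ioc 0 Z, (g : ℝ) * ((Z : ℝ) / (g : ℝ)) ^ 2 ≤ (Z : ℝ) ^ 2 * (1 + Real.log Z) := by
    have h4 : ∑ g ∈ Ioc 0 Z, (g : ℝ) * ((Z : ℝ) / (g : ℝ)) ^ 2 = (Z : ℝ) ^ 2 * ∑ g ∈ Ioc 0 Z, ((g : ℝ))⁻¹ := by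
      rw [Finset.mul_sum]
      refine Finset.sum_congr rfl (fun g hg => ?_)
      rw [Finset.mem_Ioc] at hg
      have : (g : ℝ) ≠ 0 := by
        have := hg.1
        positivity
      field_simp
    rw [h4]
    refine mul_le_mul_of_nonneg_left ?_ (sq_nonneg _)
    have h5 := harmonic_le_one_add_log Z
    have h6 : ((harmonic Z : ℚ) : ℝ) = ∑ g ∈ Ioc 0 Z, ((g : ℝ))⁻¹ := by
      rw [harmonic_eq_sum_Icc]
      push_cast
      rfl
    rw [← h6]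
    exact h5
  calc _ ≤ _ := h1
    _ ≤ _ := h2
    _ ≤ 2 * ((Z : ℝ) ^ 2 * (1 + Real.log Z)) := by linarith
    _ = _ := by ring

end Pool.Agent.EP
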