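import Pool.Agent.helper71.EP.SpecE
import Pool.Agent.helper95.TG.WT4of

set_option autoImplicit false

open Finset
open scoped Real
open Pool.Agent.helper74.TG

noncomputable section

namespace Pool.Agent.EP

theorem ENR : ENR_stmt := by
  intro Q Y r s hr hs hne
  rw [h95_mem_Fa] at hr hs
  have hr1 : (0 : ℝ) < (r.1 : ℝ) := by exact_mod_cast hr.1.1
  have hs1 : (0 : ℝ) < (s.1 : ℝ) := by exact_mod_cast hs.1.1
  have hQ : (0 : ℝ) < (Q : ℝ) := lt_of_lt_of_le hr1 (by exact_mod_cast hr.1.2)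
  have hrQ : (r.1 : ℝ) ≤ Q := by exact_mod_cast hr.1.2
  have hsQ : (s.1 : ℝ) ≤ Q := by exact_mod_cast hs.1.2
  have hδ : (0 : ℝ) < 1 / (Q : ℝ) ^ 2 := by positivity
  have h := h95_geom (u := Y) (β := (s.2 : ℝ) / s.1 - 4 * ((r.2 : ℝ) / r.1)) hδ ?_
  · refine h.trans (le_of_eq ?_)
    field_simp
  · intro k
    set z : ℤ := (s.2 : ℤ) * r.1 - 4 * r.2 * s.1 - k * r.1 * s.1 with hz
    have hzr : ((s.2 : ℝ) / s.1 - 4 * ((r.2 : ℝ) / r.1)) - k = (z : ℝ) / (r.1 * s.1) := by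
      rw [hz]
      push_cast
      field_simp
    have hz0 : z ≠ 0 := by
      intro h0
      apply hne
      refine ⟨k, ?_⟩
      rw [h0, Int.cast_zero, zero_div] at hzr
      linarith
    have hz1 : (1 : ℝ) ≤ |(z : ℝ)| := by
      have : (1 : ℤ) ≤ |z| := Int.one_le_abs hz0
      exact_mod_cast this
    rw [hzr, abs_div, abs_of_pos (mul_pos hr1 hs1)]
    have h2 : (r.1 : ℝ) * s.1 ≤ (Q : ℝ) ^ 2 := by
      rw [sq]
      exact mul_le_mul hrQ hsQ hs1.le hQ.le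
    exact div_le_div₀ (by linarith) hz1 (mul_pos hr1 hs1) h2

end Pool.Agent.EP
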