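import Pool.Agent.helper81.EP.SpecC

/-!
# Row ep:CG (problem MP_ebc808_nt): the greatest common divisor
-/

set_option autoImplicit false

namespace Pool.Agent.EP

theorem CG (hCI : CI_stmt) : CG_stmt := by
  intro b l i r p w hr hp hpb hw
  have h1 : Nat.Coprime (4 ^ b - 3 * w ^ 2) r := hCI b w r hr hw
  have h2 : Nat.Coprime (4 ^ b - 3 * w ^ 2) p := by
    rw [Nat.coprime_comm, Nat.Prime.coprime_iff_not_dvd hp]
    intro h
    have := Nat.le_of_dvd (by omega) h
    omega
  rw [Nat.Coprime.gcd_mul_right_cancel_right _ h2.symm,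
    Nat.Coprime.gcd_mul_right_cancel_right _ h1.symm]

end Pool.Agent.EP
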