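import Pool.Agent.helper81.EP.SpecC

/-!
# Row ep:CR (problem MP_ebc808_nt): all classes modulo 24 prime to 6
-/

set_option autoImplicit false

namespace Pool.Agent.EP

theorem CR_four (b : ℕ) (hb : 2 ≤ b) : 4 ^ b % 24 = 16 := by
  induction b, hb using Nat.le_induction with
  | base => norm_num
  | succ n hn ih =>
    rw [pow_succ]
    omega

theorem CR_key : ∀ x y : Fin 24, (x : ℕ) % 2 = 1 → (x : ℕ) % 3 ≠ 0 → (y : ℕ) % 2 = 1 →
    (y : ℕ) % 3 ≠ 0 → ∃ r ∈ In8, ((x : ℕ) * r * (y : ℕ) + 16) % 24 = 3 := by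
  intro x y h1 h2 h3 h4
  have h : ∀ x y : Fin 24, (x : ℕ) % 2 = 1 → (x : ℕ) % 3 ≠ 0 → (y : ℕ) % 2 = 1 →
    (y : ℕ) % 3 ≠ 0 → ∃ r ∈ [1, 5, 7, 17, 19, 35, 85, 95], ((x : ℕ) * r * (y : ℕ) + 16) % 24 = 3 := by
    decide
  obtain ⟨r, hr, hr2⟩ := h x y h1 h2 h3 h4
  refine ⟨r, ?_, hr2⟩
  simp only [List.mem_cons, List.not_mem_nil, or_false] at hr
  simp only [In8, Finset.mem_insert, Finset.mem_singleton]
  exact hr

theorem CR_cop (d : ℕ) (h : Nat.Coprime d 6) : d % 2 = 1 ∧ d % 3 ≠ 0 := by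
  constructor
  · by_contra h1
    have h2 : 2 ∣ d := by omega
    have h3 : 2 ∣ Nat.gcd d 6 := Nat.dvd_gcd h2 (by norm_num)
    rw [h] at h3
    omega
  · intro h1
    have h2 : 3 ∣ d := by omega
    have h3 : 3 ∣ Nat.gcd d 6 := Nat.dvd_gcd h2 (by norm_num)
    rw [h] at h3
    omega

theorem CR : CR_stmt := by
  intro d c b hd hc hb
  obtain ⟨d1, d2⟩ := CR_cop d hd
  obtain ⟨c1, c2⟩ := CR_cop c hc
  obtain ⟨r, hr, h⟩ := CR_key ⟨d % 24, Nat.mod_lt _ (by norm_num)⟩ ⟨c % 24,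
    Nat.mod_lt _ (by norm_num)⟩ (by simp only; omega) (by simp only; omega) (by simp only; omega)
    (by simp only; omega)
  refine ⟨r, hr, ?_⟩
  have h1 : (d * r * c + 4 ^ b) ≡ (d % 24 * r * (c % 24) + 16) [MOD 24] := by
    apply Nat.ModEq.add
    · exact ((Nat.mod_modEq d 24).symm.mul_right r).mul (Nat.mod_modEq c 24).symm
    · exact CR_four b hb
  have h2 : (d * r * c + 4 ^ b) % 24 = (d % 24 * r * (c % 24) + 16) % 24 := h1
  rw [h2]
  exact h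

end Pool.Agent.EP
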