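import Pool.Agent.helper81.EP.SpecK

/-!
# Row ep:KB (problem MP_ebc808_nt): doubling
-/

set_option autoImplicit false

namespace Pool.Agent.EP

theorem KB : KB_stmt := by
  constructor
  · rintro b m m' ⟨h1, h2, h3⟩ ⟨h1', h2', h3'⟩
    obtain ⟨u, hu⟩ : ∃ u, 4 * m = u + 1 := ⟨4 * m - 1, by omega⟩
    obtain ⟨u', hu'⟩ : ∃ u', 4 * m' = u' + 1 := ⟨4 * m' - 1, by omega⟩
    rw [hu, Nat.add_sub_cancel] at h2
    rw [hu', Nat.add_sub_cancel] at h2'
    have e4 : (4 : ℕ) ^ (b + 1) = 4 ^ b * 4 := pow_succ 4 b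
    rw [e4] at h2' h3'
    have e1 : u' < 2 * (4 * m + 1) := by
      have : u' ^ 2 < (2 * (4 * m + 1)) ^ 2 := by
        have e : (2 * (4 * m + 1)) ^ 2 = 4 * (4 * m + 1) ^ 2 := by ring
        rw [e]
        omega
      exact lt_of_pow_lt_pow_left₀ 2 (by omega) this
    have e2 : 2 * u < 4 * m' + 1 := by
      have : (2 * u) ^ 2 < (4 * m' + 1) ^ 2 := by
        have e : (2 * u) ^ 2 = 4 * u ^ 2 := by ring
        rw [e]
        omega
      exact lt_of_pow_lt_pow_left₀ 2 (by omega) this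
    omega
  · rintro b m ⟨h1, h2, h3⟩
    have h4 : (4 : ℕ) ^ b = (2 ^ b) ^ 2 := by
      rw [← pow_mul, mul_comm, pow_mul]
      norm_num
    rw [h4] at h2
    have h5 : 4 * m - 1 < 2 ^ b := lt_of_pow_lt_pow_left₀ 2 (Nat.zero_le _) (by omega)
    omega

end Pool.Agent.EP
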