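import Pool.Agent.helper81.EP.SpecK

/-!
# Row ep:KG (problem MP_ebc808_nt): the window
-/

set_option autoImplicit false

namespace Pool.Agent.EP

/-- the doubling map on the even numbers below `d` -/
def KG_D (d x : ℕ) : ℕ := if 2 * x < d then 2 * x else 2 * d - 2 * x

/-- the iterates of the doubling map -/
def KG_c (d c : ℕ) : ℕ → ℕ
  | 0 => c
  | t + 1 => KG_D d (KG_c d c t)

theorem KG (hKC : KC_stmt) (hKE : KE_stmt) (hKF : KF_stmt) : KG_stmt := by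
  intro l i b m h hl hl12 hi hm hN hE
  obtain ⟨s, hs, hs2⟩ := hKC l hl hl12 i hi
  have hlodd : l % 2 = 1 := by omega
  have hl3 : 3 ≤ l := by
    have := hl.two_le
    omega
  have hdodd : (l ^ i) % 2 = 1 := by
    have : Odd (l ^ i) := (Nat.odd_iff.mpr hlodd).pow
    exact Nat.odd_iff.mp this
  have hd3 : 3 ≤ l ^ i := by
    calc 3 ≤ l := hl3
      _ = l ^ 1 := (pow_one l).symm
      _ ≤ l ^ i := Nat.pow_le_pow_right (by omega) hi
  have hKE' := hKE l i hl hl12 hi s hs2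
  obtain ⟨F1, F2, F3, F4⟩ := hKF (l ^ i) hdodd hd3
  have hpl : Prime (l : ℤ) := Nat.prime_iff_prime_int.mp hl
  have hlk : (l : ℤ) ∣ (l : ℤ) ^ i := dvd_pow_self _ (by omega)
  have h2l : ¬ (l : ℤ) ∣ 2 := by
    intro h2
    have h3 : l ∣ 2 := by exact_mod_cast h2
    have := Nat.le_of_dvd (by norm_num) h3
    omega
  have hx : ¬ ((l ^ i : ℕ) : ℤ) ∣ 2 ^ b * s := by
    intro h1
    push_cast at h1
    have h2 := dvd_trans hlk h1
    rcases hpl.dvd_or_dvd h2 with h3 | h3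
    · exact h2l (hpl.dvd_of_dvd_pow h3)
    · exact hs h3
  obtain ⟨c0, hc0e, hc0p, hc0l, hc0d⟩ := F4 (2 ^ b * s) hx
  -- the sequence `c`
  have hc : ∀ t, KG_c (l ^ i) c0 t % 2 = 0 ∧ 0 < KG_c (l ^ i) c0 t ∧ KG_c (l ^ i) c0 t < l ^ i ∧
      (((l ^ i : ℕ) : ℤ) ∣ (KG_c (l ^ i) c0 t : ℤ) - 2 ^ (b + t) * s ∨
        ((l ^ i : ℕ) : ℤ) ∣ (KG_c (l ^ i) c0 t : ℤ) + 2 ^ (b + t) * s) := by
    intro t
    induction t with
    | zero => exact ⟨hc0e, hc0p, hc0l, hc0d⟩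
    | succ t ih =>
      obtain ⟨i1, i2, i3, i4⟩ := ih
      have h5 := F2 (KG_c (l ^ i) c0 t) (2 ^ (b + t) * s) i1 i2 i3 i4 (KG_c (l ^ i) c0 (t + 1)) rfl
      obtain ⟨j1, j2, j3, j4⟩ := h5
      refine ⟨j1, j2, j3, ?_⟩
      have e : (2 : ℤ) ^ (b + (t + 1)) * s = 2 * (2 ^ (b + t) * s) := by
        rw [← add_assoc, pow_succ]
        ring
      rw [e]
      exact j4
  -- the sequence `a`
  have hsum : ∀ t ≤ h, dis (4 * (2 ^ t * m)) (2 * l ^ i) + KG_c (l ^ i) c0 t < l ^ i := by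
    intro t ht
    obtain ⟨j1, j2, j3, j4⟩ := hc t
    push_cast at j4
    exact (hKE' (b + t) (2 ^ t * m) (KG_c (l ^ i) c0 t) (hN t ht) j1 j2 j3 j4).mp (hE t ht)
  have ha0 : 0 < dis (4 * (2 ^ 0 * m)) (2 * l ^ i) := by
    unfold dis
    have h1 : 4 * (2 ^ 0 * m) % (2 * l ^ i) < 2 * l ^ i := Nat.mod_lt _ (by omega)
    have h2 : 0 < 4 * (2 ^ 0 * m) % (2 * l ^ i) := by
      rw [Nat.pos_iff_ne_zero]
      intro h0
      apply hm
      have h3 : 2 * l ^ i ∣ 2 * (2 * m) := by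
        have := Nat.dvd_of_mod_eq_zero h0
        have e : 4 * (2 ^ 0 * m) = 2 * (2 * m) := by ring
        rwa [e] at this
      have h4 : l ^ i ∣ 2 * m := Nat.dvd_of_mul_dvd_mul_left (by norm_num) h3
      have h5 : Nat.Coprime (l ^ i) 2 := by
        apply Nat.Coprime.pow_left
        exact (Nat.coprime_primes hl Nat.prime_two).mpr (by omega)
      exact h5.dvd_of_dvd_mul_left h4
    exact lt_min h2 (by omega)
  have hae : ∀ t, dis (4 * (2 ^ t * m)) (2 * l ^ i) % 2 = 0 := by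
    intro t
    exact (F1 (4 * (2 ^ t * m)) (by omega)).2.1
  have hadd : ∀ t, dis (4 * (2 ^ (t + 1) * m)) (2 * l ^ i) =
      KG_D (l ^ i) (dis (4 * (2 ^ t * m)) (2 * l ^ i)) := by
    intro t
    have e : 4 * (2 ^ (t + 1) * m) = 2 * (4 * (2 ^ t * m)) := by
      rw [pow_succ]
      ring
    rw [e]
    exact (F1 (4 * (2 ^ t * m)) (by omega)).2.2
  have hmin0 : 2 ≤ min (dis (4 * (2 ^ 0 * m)) (2 * l ^ i)) c0 := by
    have := hae 0
    apply le_min
    · omega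
    · omega
  have hmin : ∀ t ≤ h, min (dis (4 * (2 ^ t * m)) (2 * l ^ i)) (KG_c (l ^ i) c0 t) =
      2 ^ t * min (dis (4 * (2 ^ 0 * m)) (2 * l ^ i)) c0 := by
    intro t
    induction t with
    | zero =>
      intro _
      simp only [pow_zero, one_mul, KG_c]
    | succ t ih =>
      intro ht
      have ih' := ih (by omega)
      have hpos : 0 < min (dis (4 * (2 ^ t * m)) (2 * l ^ i)) (KG_c (l ^ i) c0 t) := by
        rw [ih']
        exact Nat.mul_pos (by positivity) (by omega)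
      obtain ⟨p1, p2⟩ := lt_min_iff.mp hpos
      obtain ⟨j1, j2, j3, j4⟩ := hc t
      have h7 := F3 (dis (4 * (2 ^ t * m)) (2 * l ^ i)) (KG_c (l ^ i) c0 t) (hae t) j1 p1 p2
        (hsum t (by omega))
      have e : KG_c (l ^ i) c0 (t + 1) = KG_D (l ^ i) (KG_c (l ^ i) c0 t) := rfl
      rw [hadd t, e]
      unfold KG_D
      rw [h7, ih', pow_succ]
      ring
  have hfin := hmin h le_rfl
  have hs3 := hsum h le_rfl
  have hle1 : min (dis (4 * (2 ^ h * m)) (2 * l ^ i)) (KG_c (l ^ i) c0 h) ≤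
      dis (4 * (2 ^ h * m)) (2 * l ^ i) := min_le_left _ _
  have hle2 : min (dis (4 * (2 ^ h * m)) (2 * l ^ i)) (KG_c (l ^ i) c0 h) ≤ KG_c (l ^ i) c0 h :=
    min_le_right _ _
  have h8 : 2 ^ h * 2 ≤ 2 ^ h * min (dis (4 * (2 ^ 0 * m)) (2 * l ^ i)) c0 :=
    Nat.mul_le_mul_left _ hmin0
  rw [pow_succ]
  omega

end Pool.Agent.EP
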