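import Pool.Agent.helper81.EP.SpecK

/-!
# Row ep:KP (problem MP_ebc808_nt): main statement of part K
-/

set_option autoImplicit false

namespace Pool.Agent.EP

theorem KP (hKA : KA_stmt) (hKB : KB_stmt) (hKH : KH_stmt) (hKG : KG_stmt) : KP_stmt := by
  intro J l hJ hl hinj
  obtain ⟨C, hC⟩ : ∃ C, C = 2 + ∑ k, l k := ⟨_, rfl⟩
  refine ⟨C, ?_⟩
  intro b hb
  have hKH' := hKH J l hJ (fun k => (hl k).1) hinj b
  generalize b / J = q at *
  by_contra hcon
  have hev : ∀ b' k i, b ≤ b' → b' ≤ b + q + C → l k ^ i ≤ 2 ^ (q + C) →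
      Even (∑ i' ∈ Finset.range (i + 1), NK (l k ^ i') b') := by
    intro b' k i h1 h2 h3
    by_contra h4
    rw [Nat.not_even_iff_odd] at h4
    exact hcon ⟨b', k, i, h1, h2, h3, h4⟩
  have hone : ∀ b', b ≤ b' → b' ≤ b + q + C → Even (NK 1 b') := by
    intro b' h1 h2
    have h3 := hev b' ⟨0, by omega⟩ 0 h1 h2 (by
      rw [pow_zero]
      exact Nat.one_le_two_pow)
    simpa using h3
  obtain ⟨m, hm⟩ := hKA b hb (hone b le_rfl (by omega))
  have hN : ∀ t ≤ q + C, Near (b + t) (2 ^ t * m) := by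
    intro t
    induction t with
    | zero =>
      intro _
      simpa using hm
    | succ t ih =>
      intro ht
      have h1 := ih (by omega)
      obtain ⟨m', hm'⟩ := hKA (b + t + 1) (by omega) (hone (b + t + 1) (by omega) (by omega))
      have h2 := hKB.1 (b + t) (2 ^ t * m) m' h1 hm'
      rw [h2] at hm'
      have e : 2 ^ (t + 1) * m = 2 * (2 ^ t * m) := by
        rw [pow_succ]
        ring
      rw [e, ← add_assoc]
      exact hm'
  obtain ⟨k, i, hi, hdm, hle⟩ := hKH' m hm.1 (hKB.2 b m hm)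
  have hlC : 2 * l k ≤ 2 ^ C := by
    have h1 : l k ≤ ∑ k, l k := Finset.single_le_sum (fun _ _ => Nat.zero_le _) (Finset.mem_univ k)
    have h2 : l k < 2 ^ l k := Nat.lt_two_pow_self
    calc 2 * l k ≤ 2 * 2 ^ l k := by omega
      _ = 2 ^ (1 + l k) := by rw [pow_add, pow_one]
      _ ≤ 2 ^ C := Nat.pow_le_pow_right (by norm_num) (by omega)
  have hle2 : l k ^ i ≤ 2 ^ (q + C) := by
    calc l k ^ i ≤ l k * 2 ^ (q + 1) := hle
      _ = 2 ^ (q) * (2 * l k) := by
        rw [pow_succ]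
        ring
      _ ≤ 2 ^ (q) * 2 ^ C := Nat.mul_le_mul_left _ hlC
      _ = 2 ^ (q + C) := by rw [pow_add]
  have hle3 : l k ^ (i - 1) ≤ 2 ^ (q + C) :=
    le_trans (Nat.pow_le_pow_right (hl k).1.pos (by omega)) hle2
  have hE : ∀ t ≤ q + C, Even (NK (l k ^ i) (b + t)) := by
    intro t ht
    have h1 := hev (b + t) k i (by omega) (by omega) hle2
    have h2 := hev (b + t) k (i - 1) (by omega) (by omega) hle3
    rw [Nat.sub_add_cancel hi] at h2
    rw [Finset.sum_range_succ] at h1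
    exact (Nat.even_add.mp h1).mp h2
  have hfin := hKG (l k) i b m (q + C) (hl k).1 (hl k).2 hi hdm hN hE
  have hlt : 2 ^ (q + C) < 2 ^ (q + C + 1) :=
    Nat.pow_lt_pow_right (by norm_num) (by omega)
  omega

end Pool.Agent.EP
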