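import Pool.Agent.helper81.EP.SpecK

/-!
# Row ep:KQ (problem MP_ebc808_nt): primes congruent to 1 modulo 12
-/

set_option autoImplicit false

namespace Pool.Agent.EP

theorem KQ : KQ_stmt := by
  intro J
  have h : Set.Infinite {p : ℕ | p.Prime ∧ p ≡ 1 [MOD 12]} :=
    Nat.infinite_setOfPred_prime_and_modEq (by norm_num) (by norm_num)
  have := h.to_subtype
  let e := Infinite.natEmbedding {p : ℕ | p.Prime ∧ p ≡ 1 [MOD 12]}
  refine ⟨fun k => (e k : ℕ), ?_, ?_⟩
  · intro k
    have h1 := (e k).2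
    refine ⟨h1.1, Or.inl ?_⟩
    have h2 : (e k : ℕ) % 12 = 1 % 12 := h1.2
    simpa using h2
  · intro k k' hk
    have h1 : e k = e k' := Subtype.ext hk
    exact Fin.ext (e.injective h1)

end Pool.Agent.EP
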